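import Mathlib
import Pool.Agent.Q168.RL.Main

/-! In the Walsh case (`m_k = 2` for all `k`) the Riesz logarithmic means `R_{2^n}` are uniformly
bounded from `H_p` to `L_p` for every `0 < p ≤ 1`. -/

open MeasureTheory Set Filter Finset
open scoped ENNReal NNReal

noncomputable section

namespace Pool.Agent.Results.MP_c47ae4_an.BoundedAlongPowers

open Pool.Agent.Q168.Walsh (G mu)
open Pool.Agent.Q168.RL (IsMart S)

/-- `l_n = 1 + 1/2 + ... + 1/n` -/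
def l (n : ℕ) : ℝ := ∑ k ∈ Finset.Icc 1 n, 1 / (k : ℝ)

/-- the Riesz logarithmic means `R_n f = (1/l_n) ∑_{k=1}^n S_k f / k` -/
def R (n : ℕ) (f : ℕ → G → ℂ) (x : G) : ℂ :=
  (l n : ℂ)⁻¹ * ∑ k ∈ Finset.Icc 1 n, S f k x / (k : ℂ)

/-- the quasi-norm `‖f‖_{H_p} = ‖sup_n |f^{(n)}|‖_p` -/
def hp (p : ℝ) (f : ℕ → G → ℂ) : ℝ≥0∞ := (∫⁻ x, (⨆ n, ‖f n x‖ₑ) ^ p ∂mu) ^ (1 / p)

/-- the quasi-norm `‖g‖_p` -/
def lp (p : ℝ) (g : G → ℂ) : ℝ≥0∞ := (∫⁻ x, ‖g x‖ₑ ^ p ∂mu) ^ (1 / p)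

theorem result (p : ℝ) (h0 : 0 < p) (h1 : p ≤ 1) :
    (∃ C : ℝ≥0, ∀ f : ℕ → G → ℂ, IsMart f → ∀ n : ℕ, lp p (R (2 ^ n) f) ≤ C * hp p f) ∧
    ∀ f : ℕ → G → ℂ, IsMart f → hp p f < ∞ → (⨆ n : ℕ, lp p (R (2 ^ n) f)) < ∞ := by
  have key : ∃ C : ℝ≥0, ∀ f : ℕ → G → ℂ, IsMart f → ∀ n : ℕ,
      lp p (R (2 ^ n) f) ≤ C * hp p f := by
    set M : ℝ := 4 * Q168.RL.Ep 1 + 1 with hM
    have hM0 : 0 < M := by
      have := Q168.RL.Ep_pos 1
      positivity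
    have hK0 : 0 ≤ Q168.RL.Ep p * Q168.RL.cp p * Q168.RL.Gp p :=
      mul_nonneg (mul_nonneg (Q168.RL.Ep_pos p).le (Q168.RL.cp_pos p h0).le)
        (Q168.RL.Gp_nonneg p)
    set K : ℝ := M ^ p + Q168.RL.Ep p * Q168.RL.cp p * Q168.RL.Gp p with hK
    have hKn : 0 ≤ K := add_nonneg (Real.rpow_nonneg hM0.le _) hK0
    refine ⟨Real.toNNReal (K ^ (1 / p)), fun f hf n => ?_⟩
    have hl1 := Q168.RL.ln_ge n
    have hl : l (2 ^ n) = Q168.RL.ln (2 ^ n) := rfl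
    rw [← hl] at hl1
    have hlp : 1 ≤ l (2 ^ n) := by
      have : (0 : ℝ) ≤ (n : ℝ) / 2 := by positivity
      linarith
    have hl0 : 0 < l (2 ^ n) := by linarith
    have hMl : 2 * n * Q168.RL.Ep 1 + 1 ≤ M * l (2 ^ n) := by
      have hE := Q168.RL.Ep_pos 1
      have h3 : (n : ℝ) ≤ 2 * l (2 ^ n) := by linarith
      rw [hM]
      nlinarith [mul_le_mul_of_nonneg_right h3 hE.le]
    have hR : ∀ x, ‖R (2 ^ n) f x‖ₑ ^ p =
        ENNReal.ofReal ((l (2 ^ n))⁻¹ ^ p) * ‖Q168.RL.LS f (2 ^ n) x‖ₑ ^ p := by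
      intro x
      have : R (2 ^ n) f x = ((l (2 ^ n))⁻¹ : ℝ) * Q168.RL.LS f (2 ^ n) x := by
        unfold R Q168.RL.LS
        push_cast
        rfl
      rw [this, enorm_mul, ENNReal.mul_rpow_of_nonneg _ _ h0.le, ← ofReal_norm,
        Complex.norm_real, Real.norm_of_nonneg (inv_nonneg.2 hl0.le),
        ENNReal.ofReal_rpow_of_nonneg (inv_nonneg.2 hl0.le) h0.le]
    have hA : (0 : ℝ) ≤ 2 * n * Q168.RL.Ep 1 + 1 := by
      have := Q168.RL.Ep_pos 1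
      positivity
    have main : ∫⁻ x, ‖R (2 ^ n) f x‖ₑ ^ p ∂mu ≤
        ENNReal.ofReal K * ∫⁻ x, (⨆ n, ‖f n x‖ₑ) ^ p ∂mu := by
      simp_rw [hR]
      rw [lintegral_const_mul' _ _ ENNReal.ofReal_ne_top]
      calc ENNReal.ofReal ((l (2 ^ n))⁻¹ ^ p) * ∫⁻ x, ‖Q168.RL.LS f (2 ^ n) x‖ₑ ^ p ∂mu ≤
          ENNReal.ofReal ((l (2 ^ n))⁻¹ ^ p) *
            ((ENNReal.ofReal ((2 * n * Q168.RL.Ep 1 + 1) ^ p) +
              ENNReal.ofReal (Q168.RL.Ep p * Q168.RL.cp p * Q168.RL.Gp p)) *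
            ∫⁻ y, Q168.RL.he f n y ^ p ∂mu) :=
            mul_le_mul_right (Q168.RL.int_LS hf p h0 h1 n) _
        _ = ENNReal.ofReal ((l (2 ^ n))⁻¹ ^ p * ((2 * n * Q168.RL.Ep 1 + 1) ^ p +
              Q168.RL.Ep p * Q168.RL.cp p * Q168.RL.Gp p)) *
            ∫⁻ y, Q168.RL.he f n y ^ p ∂mu := by
            rw [← ENNReal.ofReal_add (Real.rpow_nonneg hA _) hK0, ← mul_assoc,
              ← ENNReal.ofReal_mul (Real.rpow_nonneg (inv_nonneg.2 hl0.le) _)]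
        _ ≤ ENNReal.ofReal K * ∫⁻ x, (⨆ n, ‖f n x‖ₑ) ^ p ∂mu := by
            apply mul_le_mul'
            · apply ENNReal.ofReal_le_ofReal
              rw [mul_add, hK]
              apply add_le_add
              · rw [← Real.mul_rpow (inv_nonneg.2 hl0.le) hA]
                apply Real.rpow_le_rpow (mul_nonneg (inv_nonneg.2 hl0.le) hA) _ h0.le
                rw [inv_mul_le_iff₀ hl0]
                linarith
              · apply mul_le_of_le_one_left hK0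
                apply Real.rpow_le_one (inv_nonneg.2 hl0.le) _ h0.le
                exact inv_le_one_of_one_le₀ hlp
            · apply lintegral_mono
              intro x
              exact ENNReal.rpow_le_rpow (Q168.RL.he_le f n x) h0.le
    unfold lp hp
    have h1p : 0 ≤ 1 / p := by positivity
    calc (∫⁻ x, ‖R (2 ^ n) f x‖ₑ ^ p ∂mu) ^ (1 / p) ≤
        (ENNReal.ofReal K * ∫⁻ x, (⨆ n, ‖f n x‖ₑ) ^ p ∂mu) ^ (1 / p) :=
          ENNReal.rpow_le_rpow main h1p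
      _ = _ := by
          rw [ENNReal.mul_rpow_of_nonneg _ _ h1p, ENNReal.ofReal_rpow_of_nonneg hKn h1p]
          rfl
  refine ⟨key, fun f hf hfin => ?_⟩
  obtain ⟨C, hC⟩ := key
  exact lt_of_le_of_lt (iSup_le fun n => hC f hf n)
    (ENNReal.mul_lt_top ENNReal.coe_lt_top hfin)

end Pool.Agent.Results.MP_c47ae4_an.BoundedAlongPowers
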